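import Mathlib

set_option autoImplicit false

namespace Pool.Agent.Results.MP_cb2a9f_co.Counter

open Set
open scoped Matroid

/-- `B` is a basis (maximal member) of the family `𝓘`. -/
def IsBasisOf {α : Type} (𝓘 : Set (Set α)) (B : Set α) : Prop := Maximal (fun Y => Y ∈ 𝓘) B

/-- `(W, 𝓘)` is a pre-independence space. -/
def PreInd {α : Type} (W : Set α) (𝓘 : Set (Set α)) : Prop :=
  (∀ I ∈ 𝓘, I ⊆ W) ∧ ∅ ∈ 𝓘 ∧ (∀ I ∈ 𝓘, ∀ J, J ⊆ I → J ∈ 𝓘) ∧
  ∀ I₁ ∈ 𝓘, ∀ I₂ ∈ 𝓘, I₁.Finite → I₂.Finite → I₁.ncard < I₂.ncard →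
    ∃ e ∈ I₂ \ I₁, insert e I₁ ∈ 𝓘

/-- `(W, 𝓘)` is an independence space. -/
def IndSpace {α : Type} (W : Set α) (𝓘 : Set (Set α)) : Prop :=
  PreInd W 𝓘 ∧ ∀ Y, (∀ F, F ⊆ Y → F.Finite → F ∈ 𝓘) → Y ∈ 𝓘

/-- the restriction `𝓘 | Z` -/
def restr {α : Type} (𝓘 : Set (Set α)) (Z : Set α) : Set (Set α) := {Y | Y ⊆ Z ∧ Y ∈ 𝓘}

/-- the contraction `𝓘 . Z` computed with the basis `B` of `𝓘 | (W \ Z)` -/
def contr {α : Type} (𝓘 : Set (Set α)) (Z B : Set α) : Set (Set α) := {Y | Y ⊆ Z ∧ Y ∪ B ∈ 𝓘}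

/-- the dual of `(W, 𝓘)` -/
def dual {α : Type} (W : Set α) (𝓘 : Set (Set α)) : Set (Set α) :=
  {X | X ⊆ W ∧ ∃ B, IsBasisOf 𝓘 B ∧ B ⊆ W \ X}

/-- `(W, 𝓘)` is a B-matroid; the members of `𝓜_X` are the bases of `𝓘 | X`. -/
def BMatroid {α : Type} (W : Set α) (𝓘 : Set (Set α)) : Prop :=
  (∀ I ∈ 𝓘, I ⊆ W) ∧ ∅ ∈ 𝓘 ∧ (∀ I ∈ 𝓘, ∀ J, J ⊆ I → J ∈ 𝓘) ∧
  ∀ X, X ⊆ W →
    (∀ T ∈ 𝓘, T ⊆ X → ∃ B, IsBasisOf (restr 𝓘 X) B ∧ T ⊆ B) ∧
    ∀ B₁ B₂, IsBasisOf (restr 𝓘 X) B₁ → IsBasisOf (restr 𝓘 X) B₂ →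
      ∀ x ∈ B₁ \ B₂, ∃ y ∈ B₂ \ B₁, IsBasisOf (restr 𝓘 X) (insert y (B₁ \ {x}))

/-- `𝓓` is an admissible system on the ground set `α` (`𝓓 W` is the class on `W`). -/
def Admissible {α : Type} (𝓓 : Set α → Set (Set (Set α))) : Prop :=
  (∀ W, ∀ 𝓘 ∈ 𝓓 W, PreInd W 𝓘) ∧
  (∀ Z W, Z ⊆ W → ∀ 𝓘 ∈ 𝓓 W, restr 𝓘 Z ∈ 𝓓 Z ∧
    (∃ B, IsBasisOf (restr 𝓘 (W \ Z)) B) ∧
    (∀ B B', IsBasisOf (restr 𝓘 (W \ Z)) B → IsBasisOf (restr 𝓘 (W \ Z)) B' →
      contr 𝓘 Z B = contr 𝓘 Z B') ∧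
    ∀ B, IsBasisOf (restr 𝓘 (W \ Z)) B → contr 𝓘 Z B ∈ 𝓓 Z) ∧
  ∀ W, ∀ 𝓘 ∈ 𝓓 W, dual W 𝓘 ∈ 𝓓 W ∧ dual W (dual W 𝓘) = 𝓘

section aux
variable {α : Type}

lemma basis_restr (M : Matroid α) (X B : Set α) :
    IsBasisOf (restr {I | M.Indep I} X) B ↔ M.IsBasis' B X := by
  unfold IsBasisOf restr Matroid.IsBasis'
  simp only [mem_ofPred_eq, and_comm]

lemma dual_eq (M : Matroid α) : dual M.E {I | M.Indep I} = {I | M✶.Indep I} := by
  ext X
  simp only [dual, IsBasisOf, mem_ofPred_eq, Matroid.dual_indep_iff_exists',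
    Matroid.isBase_iff_maximal_indep]
  refine and_congr_right fun _ => exists_congr fun B => and_congr_right fun hB => ?_
  rw [subset_sdiff, and_iff_right hB.prop.subset_ground, disjoint_comm]

lemma contr_eq (M : Matroid α) {Z B : Set α} (hB : M.IsBasis' B (M.E \ Z)) :
    contr {I | M.Indep I} Z B = {I | (M ／ (M.E \ Z)).Indep I} := by
  ext Y
  have hB' : M.IsBasis B (M.E \ Z) := (Matroid.isBasis'_iff_isBasis sdiff_subset).1 hB
  simp only [contr, mem_ofPred_eq, hB'.contract_indep_iff]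
  constructor
  · rintro ⟨h1, h2⟩
    exact ⟨h2, disjoint_left.2 fun x hx hx' => hx.2 (h1 hx')⟩
  · rintro ⟨h1, h2⟩
    refine ⟨fun y hy => ?_, h1⟩
    by_contra hyZ
    exact disjoint_left.1 h2 ⟨h1.subset_ground (Or.inl hy), hyZ⟩ hy

lemma preInd (M : Matroid α) : PreInd M.E {I | M.Indep I} := by
  refine ⟨fun I hI => Matroid.Indep.subset_ground hI, M.empty_indep,
    fun I hI J hJ => Matroid.Indep.subset hI hJ, ?_⟩
  intro I hI J hJ hIf hJf hlt
  refine Matroid.Indep.augment hI hJ ?_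
  rw [← hIf.cast_ncard_eq, ← hJf.cast_ncard_eq]
  exact_mod_cast hlt

lemma bMatroid (M : Matroid α) : BMatroid M.E {I | M.Indep I} := by
  refine ⟨fun I hI => Matroid.Indep.subset_ground hI, M.empty_indep,
    fun I hI J hJ => Matroid.Indep.subset hI hJ, fun X hX => ⟨?_, ?_⟩⟩
  · intro T hT hTX
    obtain ⟨B, hB, hTB⟩ := Matroid.Indep.subset_isBasis'_of_subset hT hTX
    exact ⟨B, (basis_restr _ _ _).2 hB, hTB⟩
  · intro B₁ B₂ h1 h2 x hx
    rw [basis_restr, Matroid.isBasis'_iff_isBasis hX] at h1 h2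
    obtain ⟨y, hy, h⟩ := h1.exchange h2 hx
    exact ⟨y, hy, (basis_restr _ _ _).2 h.isBasis'⟩

/-- finitary or cofinitary matroids -/
def D (W : Set α) : Set (Set (Set α)) :=
  {𝓘 | ∃ M : Matroid α, M.E = W ∧ 𝓘 = {I | M.Indep I} ∧ (M.Finitary ∨ M✶.Finitary)}

lemma admissible : Admissible (D (α := α)) := by
  refine ⟨?_, ?_, ?_⟩
  · rintro W _ ⟨M, rfl, rfl, -⟩
    exact preInd M
  · rintro Z W hZ _ ⟨M, rfl, rfl, hM⟩
    refine ⟨⟨M ↾ Z, rfl, ?_, ?_⟩, ?_, ?_, ?_⟩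
    · ext Y; simp [restr, and_comm]
    · rcases hM with hM | hM
      · left; infer_instance
      · right
        have : M ↾ Z = M ＼ (M.E \ Z) := by
          rw [Matroid.delete_eq_restrict, sdiff_sdiff_cancel_left hZ]
        rw [this, Matroid.dual_delete]
        infer_instance
    · obtain ⟨B, hB⟩ := M.exists_isBasis' (M.E \ Z)
      exact ⟨B, (basis_restr _ _ _).2 hB⟩
    · intro B B' hB hB'
      rw [basis_restr] at hB hB'
      rw [contr_eq M hB, contr_eq M hB']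
    · intro B hB
      rw [basis_restr] at hB
      refine ⟨M ／ (M.E \ Z), by simp [sdiff_sdiff_cancel_left hZ], contr_eq M hB, ?_⟩
      rcases hM with hM | hM
      · left; infer_instance
      · right
        rw [Matroid.dual_contract]
        infer_instance
  · rintro W _ ⟨M, rfl, rfl, hM⟩
    refine ⟨⟨M✶, rfl, dual_eq M, ?_⟩, ?_⟩
    · rw [Matroid.dual_dual]; exact hM.symm
    · rw [dual_eq M]
      have := dual_eq M✶
      rw [Matroid.dual_dual] at this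
      exact this

lemma indSpace_mem {W : Set α} {𝓘 : Set (Set α)} (h : IndSpace W 𝓘) : 𝓘 ∈ D W := by
  obtain ⟨⟨h1, h2, h3, h4⟩, h5⟩ := h
  refine ⟨(IndepMatroid.ofFinitaryCardAugment W (fun I => I ∈ 𝓘) h2
    (fun I J hJ hIJ => h3 J hJ I hIJ) ?_ h5 h1).matroid, rfl, ?_, Or.inl inferInstance⟩
  · intro I J hI hIf hJ hJf hlt
    obtain ⟨e, he, h⟩ := h4 I hI J hJ hIf hJf hlt
    exact ⟨e, he.1, he.2, h⟩
  · ext I; simp

/-- the rank one uniform matroid on `P` -/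
noncomputable def U1 (P : Set α) : Matroid α :=
  (IndepMatroid.ofFinitaryCardAugment P (fun I => I ⊆ P ∧ I.Subsingleton)
    ⟨empty_subset _, subsingleton_empty⟩
    (fun _ _ hJ hIJ => ⟨hIJ.trans hJ.1, hJ.2.anti hIJ⟩)
    (by
      intro I J hI hIf hJ hJf hlt
      have h1 : J.ncard ≤ 1 := (ncard_le_one hJf).2 fun a ha b hb => hJ.2 ha hb
      have h2 : I = ∅ := (ncard_eq_zero hIf).1 (by omega)
      obtain ⟨e, he⟩ := nonempty_of_ncard_ne_zero (s := J) (by omega)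
      subst h2
      exact ⟨e, he, notMem_empty _, by simpa using hJ.1 he, by simp⟩)
    (by
      intro I h
      refine ⟨fun x hx => (h {x} (by simpa using hx) (finite_singleton _)).1 rfl, ?_⟩
      intro x hx y hy
      exact (h {x, y} (by simp [insert_subset_iff, hx, hy]) (toFinite _)).2 (by simp) (by simp))
    (fun _ h => h.1)).matroid

lemma U1_E (P : Set α) : (U1 P).E = P := rfl

lemma U1_indep (P I : Set α) : (U1 P).Indep I ↔ I ⊆ P ∧ I.Subsingleton := by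
  simp [U1]

lemma U1_base (P : Set α) {x : α} (hx : x ∈ P) : (U1 P).IsBase {x} := by
  rw [Matroid.isBase_iff_maximal_indep]
  refine ⟨(U1_indep _ _).2 ⟨by simpa using hx, subsingleton_singleton⟩, ?_⟩
  intro J hJ h y hy
  exact ((U1_indep _ _).1 hJ).2 hy (h rfl)

lemma U1_base_ne (P : Set α) (hP : P.Nonempty) : ¬ (U1 P).IsBase ∅ := by
  intro h
  obtain ⟨x, hx⟩ := hP
  have := h.eq_of_subset_indep (U1_base P hx).indep (empty_subset _)
  exact (singleton_ne_empty x) this.symm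

lemma U1_dual_fin {P F : Set α} (hP : P.Infinite) (hF : F.Finite) (hFP : F ⊆ P) :
    (U1 P)✶.Indep F := by
  obtain ⟨x, hx, hxF⟩ := (hP.sdiff hF).nonempty
  rw [Matroid.dual_indep_iff_exists']
  exact ⟨hFP, {x}, U1_base P hx, by simpa using hxF⟩

lemma U1_dual_not {P : Set α} (hP : P.Nonempty) : ¬ (U1 P)✶.Indep P := by
  rw [Matroid.dual_indep_iff_exists']
  rintro ⟨-, B, hB, hd⟩
  have h1 : B ⊆ P := hB.subset_ground
  have : B = ∅ := by
    exact eq_empty_of_forall_notMem fun x hx => disjoint_left.1 hd (h1 hx) hx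
  exact U1_base_ne P hP (this ▸ hB)

end aux

theorem result (α : Type) [Infinite α] :
    ∃ 𝓓 : Set α → Set (Set (Set α)), Admissible 𝓓 ∧
      (∀ W 𝓘, IndSpace W 𝓘 → 𝓘 ∈ 𝓓 W) ∧
      ∃ W 𝓘, BMatroid W 𝓘 ∧ 𝓘 ∉ 𝓓 W := by
  refine ⟨D, admissible, fun W 𝓘 h => indSpace_mem h, ?_⟩
  let f := Infinite.natEmbedding α
  let P : Set α := range fun n => f (2 * n)
  let Q : Set α := range fun n => f (2 * n + 1)
  have hP : P.Infinite := infinite_range_of_injective fun a b h => by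
    have := f.injective h; omega
  have hQ : Q.Infinite := infinite_range_of_injective fun a b h => by
    have := f.injective h; omega
  have hPQ : Disjoint (U1 P).E (U1 Q)✶.E := by
    rw [disjoint_left]
    rintro _ ⟨a, rfl⟩ ⟨b, h⟩
    have := f.injective h; omega
  have hPQ' : Disjoint P Q := hPQ
  let M := (U1 P).disjointSum (U1 Q)✶ hPQ
  refine ⟨M.E, {I | M.Indep I}, bMatroid M, ?_⟩
  rintro ⟨N, hE, hI, hN⟩
  have hNM : N = M := Matroid.ext_indep hE fun I _ => by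
    have := Set.ext_iff.1 hI I
    exact this.symm
  subst hNM
  rcases hN with hN | hN
  · have : M.Indep Q := by
      refine Matroid.indep_of_forall_finite_subset_indep _ fun J hJ hJf => ?_
      rw [Matroid.disjointSum_indep_iff]
      refine ⟨?_, U1_dual_fin hQ (hJf.subset inter_subset_left) inter_subset_right,
        hJ.trans subset_union_right⟩
      have : J ∩ (U1 P).E = ∅ := (hPQ'.symm.mono_left hJ).inter_eq
      rw [this]; exact Matroid.empty_indep _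
    rw [Matroid.disjointSum_indep_iff] at this
    have h2 := this.2.1
    rw [show Q ∩ (U1 Q)✶.E = Q from inter_self Q] at h2
    exact U1_dual_not hQ.nonempty h2
  · have : M✶.Indep P := by
      refine Matroid.indep_of_forall_finite_subset_indep _ fun J hJ hJf => ?_
      obtain ⟨x, hx, hxJ⟩ := (hP.sdiff hJf).nonempty
      obtain ⟨B, hB⟩ := (U1 Q)✶.exists_isBase
      have hBQ : B ⊆ Q := hB.subset_ground
      rw [Matroid.dual_indep_iff_exists']
      refine ⟨by rw [Matroid.disjointSum_ground_eq]; exact hJ.trans subset_union_left,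
        insert x B, ?_, ?_⟩
      · rw [Matroid.disjointSum_isBase_iff]
        refine ⟨?_, ?_, insert_subset (Or.inl hx) (hBQ.trans subset_union_right)⟩
        · have : insert x B ∩ (U1 P).E = {x} := by
            rw [U1_E, insert_inter_of_mem hx, (hPQ'.symm.mono_left hBQ).inter_eq]; simp
          rw [this]; exact U1_base P hx
        · have : insert x B ∩ (U1 Q)✶.E = B := by
            rw [show (U1 Q)✶.E = Q from rfl, insert_inter_of_notMem (disjoint_left.1 hPQ' hx),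
              inter_eq_left.2 hBQ]
          rw [this]; exact hB
      · rw [disjoint_insert_right]
        exact ⟨hxJ, hPQ'.mono hJ hBQ⟩
    rw [Matroid.dual_indep_iff_exists'] at this
    obtain ⟨-, B, hB, hd⟩ := this
    rw [Matroid.disjointSum_isBase_iff] at hB
    have h1 := hB.1
    rw [U1_E, hd.symm.inter_eq] at h1
    exact U1_base_ne P hP.nonempty h1

end Pool.Agent.Results.MP_cb2a9f_co.Counter
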